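import Pool.Agent.W763.PB.Stm

/-! Project PB (helper763), F2: the asymptote of one block. -/

set_option autoImplicit false

open MeasureTheory Filter Topology
open scoped InnerProductSpace BoundedContinuousFunction

namespace Pool.Agent.W591.PB

open Pool.Agent.W763.PB

theorem f2 : S_F2a → S_F2b → S_F2 := by
  intro ha hb L hL H _ _ _ U D h1 h2
  obtain ⟨B, hB, hB1, hB2, hB3⟩ := ha L hL H U D h1 h2
  obtain ⟨R, hR, hR1, hR2⟩ := hb H U B hB hB1 hB2
  refine ⟨R.comp (D.symm : H →L[ℂ] H), ?_, ?_, ?_⟩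
  · have h3 : (⇑(R.comp (D.symm : H →L[ℂ] H)) : H → H) = R ∘ D.symm := rfl
    rw [h3]
    exact hR.comp D.symm.surjective.denseRange R.continuous
  · intro x
    change R (D.symm (D (U (D.symm x)))) = U (R (D.symm x))
    rw [D.symm_apply_apply, hR1]
  · intro x f hf
    change ‖R (D.symm x)‖ ^ 2 = L f
    rw [hR2, hB3 (D.symm x) f hf]

end Pool.Agent.W591.PB
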